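import Pool.Agent.H70.RC.Targets

/-!
# Module ESY of nbq_modules
-/

set_option autoImplicit false

namespace Pool.Agent.H97.RC

open Filter Pool.Agent.H6.NB Pool.Agent.H70.RC

theorem cost (n c C0 : ℕ) (hn : 2 ≤ n) :
    n ^ (c + 1) + c + 1 + 1 ≤ n ^ (c + C0 + 3) + (c + C0 + 3) ∧
    n ^ C0 + C0 ≤ n ^ (c + C0 + 3) + (c + C0 + 3) ∧
    n + 1 + (n ^ c + c) ≤ n ^ (c + C0 + 3) + (c + C0 + 3) := by
  have h0 : 1 ≤ n := by omega
  have h1 : n ^ (c + 1) ≤ n ^ (c + C0 + 3) := Nat.pow_le_pow_right h0 (by omega)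
  have h2 : n ^ C0 ≤ n ^ (c + C0 + 3) := Nat.pow_le_pow_right h0 (by omega)
  have h3 : n ^ (c + 2) ≤ n ^ (c + C0 + 3) := Nat.pow_le_pow_right h0 (by omega)
  have h4 : n ^ c ≤ n ^ (c + 1) := Nat.pow_le_pow_right h0 (by omega)
  have h5 : n ^ 1 ≤ n ^ (c + 1) := Nat.pow_le_pow_right h0 (by omega)
  have h6 : n ^ (c + 2) = n ^ (c + 1) * n := pow_succ n (c + 1)
  have h7 : n ^ (c + 1) * 2 ≤ n ^ (c + 1) * n := Nat.mul_le_mul_left _ hn
  rw [pow_one] at h5
  omega

theorem ofFn_append_inj {k : ℕ} {a b : Fin k → Bool} {w w' : List Bool}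
    (h : List.ofFn a ++ w = List.ofFn b ++ w') : a = b ∧ w = w' := by
  have h1 := List.append_inj h (by rw [List.length_ofFn, List.length_ofFn])
  exact ⟨List.ofFn_injective h1.1, h1.2⟩

open Classical in
/-- the trees of the combined oracle -/
noncomputable def comb {n M k : ℕ} (e : Fin M → Fin k → Bool)
    (tr : Fin M → List Bool → PT (Fin n → Bool)) (u : List Bool) : PT (Fin n → Bool) :=
  if h : ∃ x : Fin M × List Bool, u = List.ofFn (e x.1) ++ x.2 then tr h.choose.1 h.choose.2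
  else PT.leaf false

theorem comb_eq {n M k : ℕ} {e : Fin M → Fin k → Bool} (he : Function.Injective e)
    (tr : Fin M → List Bool → PT (Fin n → Bool)) (i : Fin M) (w : List Bool) :
    comb e tr (List.ofFn (e i) ++ w) = tr i w := by
  have h1 : ∃ x : Fin M × List Bool, List.ofFn (e i) ++ w = List.ofFn (e x.1) ++ x.2 :=
    ⟨(i, w), rfl⟩
  unfold comb
  rw [dif_pos h1]
  have h2 := ofFn_append_inj h1.choose_spec
  rw [← he h2.1, ← h2.2]

theorem comb_or {n M k : ℕ} (e : Fin M → Fin k → Bool)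
    (tr : Fin M → List Bool → PT (Fin n → Bool)) (u : List Bool) :
    (∃ i w, comb e tr u = tr i w) ∨ comb e tr u = PT.leaf false := by
  unfold comb
  by_cases h : ∃ x : Fin M × List Bool, u = List.ofFn (e x.1) ++ x.2
  · rw [dif_pos h]
    exact Or.inl ⟨_, _, rfl⟩
  · rw [dif_neg h]
    exact Or.inr rfl

open Classical in
/-- averages with few exceptions -/
theorem avg_bounds {M : ℕ} (hM : 1 ≤ M) (G : Fin M → Prop) (x : Fin M → ℝ)
    (h0 : ∀ i, 0 ≤ x i ∧ x i ≤ 1)
    (hG : 100 * (Finset.univ.filter fun i => ¬ G i).card ≤ M) :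
    ((∀ i, G i → 2 / 3 ≤ x i) → 3 / 5 ≤ (∑ i, x i) / M) ∧
    ((∀ i, G i → x i ≤ 1 / 3) → (∑ i, x i) / M ≤ 2 / 5) := by
  have hM' : (1 : ℝ) ≤ M := by exact_mod_cast hM
  have hM0 : (0 : ℝ) < M := by linarith
  have hb : (100 : ℝ) * ∑ i : Fin M, (if ¬ G i then (1 : ℝ) else 0) ≤ M := by
    rw [Finset.sum_boole]
    exact_mod_cast hG
  constructor
  · intro h
    rw [le_div_iff₀ hM0]
    have h1 : ∀ i, 2 / 3 - (if ¬ G i then (1 : ℝ) else 0) ≤ x i := by
      intro i
      by_cases hi : G i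
      · rw [if_neg (not_not.2 hi)]
        have := h i hi
        linarith
      · rw [if_pos hi]
        have := (h0 i).1
        linarith
    have h2 := Finset.sum_le_sum fun i (_ : i ∈ Finset.univ) => h1 i
    rw [Finset.sum_sub_distrib, Finset.sum_const, Finset.card_univ, Fintype.card_fin,
      nsmul_eq_mul] at h2
    linarith
  · intro h
    rw [div_le_iff₀ hM0]
    have h1 : ∀ i, x i ≤ 1 / 3 + (if ¬ G i then (1 : ℝ) else 0) := by
      intro i
      by_cases hi : G i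
      · rw [if_neg (not_not.2 hi)]
        have := h i hi
        linarith
      · rw [if_pos hi]
        have := (h0 i).2
        linarith
    have h2 := Finset.sum_le_sum fun i (_ : i ∈ Finset.univ) => h1 i
    rw [Finset.sum_add_distrib, Finset.sum_const, Finset.card_univ, Fintype.card_fin,
      nsmul_eq_mul] at h2
    linarith

/-- ESY -/
theorem pf_ESY (hLST : T_LST) (hEVO : T_EVO) (hDNF : Pool.Agent.H70.RC.T_DNF) (hPNT : T_PNT) (hPNM : T_PNM)
    (hSIM : T_SIM) (hLOC : Pool.Agent.H70.RC.T_LOC) : T_ESY := by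
  classical
  intro V f Q c hQ
  obtain ⟨F, t, hF⟩ := hDNF V
  obtain ⟨C0, hE⟩ := hEVO V F t hF c
  refine ⟨c + C0 + 3, ?_⟩
  filter_upwards [hLST V F t hF c, eventually_ge_atTop 4] with n hn1 hn4
  intro N hN D hR
  obtain ⟨l, hl1, hl2⟩ := hn1 N hN D
  choose G hG1 hG2 using fun i => hE n N hn4 hN D (l i)
  obtain ⟨hc1, hc2, hc3⟩ := cost n c C0 (by omega)
  set m := n ^ (c + C0 + 3) + (c + C0 + 3) with hm
  have htr : ∀ i w, ∃ P : PT (Fin n → Bool), P.depth ≤ m ∧ P.Small m ∧ ∀ X, P.eval X = G i w X := by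
    intro i w
    refine hPNT (Fin n → Bool) m m (G i w) (hPNM (Fin n → Bool) Bool (N + 1) m (n ^ C0 + C0) m
      (G i w) (by rw [hN]; exact hc1) hc2 (hG1 i w))
  choose tr htr1 htr2 htr3 using htr
  have hcard : Fintype.card (Fin (2 ^ n + 1)) ≤ Fintype.card (Fin (n + 1) → Bool) := by
    rw [Fintype.card_fun, Fintype.card_bool, Fintype.card_fin, Fintype.card_fin, pow_succ]
    have : 1 ≤ 2 ^ n := Nat.one_le_two_pow
    omega
  obtain ⟨e⟩ := Function.Embedding.nonempty_of_card_le hcard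
  have hM : 1 ≤ 2 ^ n + 1 := Nat.le_add_left 1 (2 ^ n)
  obtain ⟨Q', hQ1, hQ2, hQ3⟩ := hSIM (Q n) (2 ^ n + 1) (fun i w => List.ofFn (e i) ++ w) hM
  have hNc : n ^ c + c ≤ N := by
    rw [hN]
    have : n ^ c ≤ n ^ (c + 1) := Nat.pow_le_pow_right (by omega) (by omega)
    omega
  refine ⟨Q', comb e tr, ?_, ?_, ?_, ?_⟩
  · rw [hQ1]
    have := (hQ n).1
    omega
  · refine hQ2 (n ^ c + c) m (hQ n).2 fun i w hw => ?_
    rw [List.length_append, List.length_ofFn]
    omega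
  · intro u
    rcases comb_or e tr u with ⟨i, w, h⟩ | h
    · rw [h]
      exact ⟨htr1 i w, htr2 i w⟩
    · rw [h]
      exact ⟨Nat.zero_le _, trivial⟩
  · intro X
    have hx : ∀ i, GoodS V F D X (l i) → ((Q n).prob fun w =>
        (comb e tr (List.ofFn (e i) ++ w)).eval X) = (Q n).prob (orc V (ins n N D X (l i))) := by
      intro i hi
      refine (hLOC (Q n)).2 (n ^ c + c) _ _ (hQ n).2 fun w hw => ?_
      rw [comb_eq e.injective, htr3, hG2 i X hi w (hw.trans hNc)]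
    have hA := avg_bounds hM (fun i => GoodS V F D X (l i)) (fun i => (Q n).prob fun w =>
        (comb e tr (List.ofFn (e i) ++ w)).eval X) (fun i => (hLOC (Q n)).1 _) (hl2 X)
    rw [hQ3]
    constructor
    · intro hf
      refine hA.1 fun i hi => ?_
      rw [hx i hi]
      exact (hR X (l i) (hl1 i)).1 hf
    · intro hf
      refine hA.2 fun i hi => ?_
      rw [hx i hi]
      exact (hR X (l i) (hl1 i)).2 hf

end Pool.Agent.H97.RC
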