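import Pool.Agent.H70.RC.Targets

/-!
# Module BLG of nbq_modules
-/

set_option autoImplicit false

namespace Pool.Agent.H97.RC

open Finset Pool.Agent.H6.NB Pool.Agent.H70.OQ Pool.Agent.H70.EH Pool.Agent.H70.EI
open Pool.Agent.H78.XQ Pool.Agent.H70.RC

theorem card_Li (n N : ℕ) : Fintype.card (Li n N) ≤ 2 ^ (2 * N) := by
  have h1 : Function.Injective (fun (s : Li n N) (i : Fin N) => s.1[(i : ℕ)]?) := by
    intro s s' h
    apply Subtype.ext
    apply List.ext_getElem?
    intro i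
    by_cases hi : i < N
    · exact congrFun h ⟨i, hi⟩
    · have h2 := s.2.2
      have h3 := s'.2.2
      rw [List.getElem?_eq_none (by omega), List.getElem?_eq_none (by omega)]
  have h2 := Fintype.card_le_of_injective _ h1
  rw [Fintype.card_fun, Fintype.card_option, Fintype.card_bool, Fintype.card_fin] at h2
  calc Fintype.card (Li n N) ≤ (2 + 1) ^ N := h2
    _ ≤ (2 ^ 2) ^ N := Nat.pow_le_pow_left (by norm_num) N
    _ = 2 ^ (2 * N) := by rw [← pow_mul]

theorem clb12 (hCLB : Pool.Agent.H6.NB.T_CLB) {V : Type} {S r : ℕ} {f : (V → Bool) → Bool}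
    (hS : 2 ≤ S) (hr : 20 ≤ r) (h : Cl V S 12 f) : Cl V S (r + 2) f :=
  (hCLB V S hS).2.1 12 (r + 2) f (by omega) h

/-- the condition that the seeds are good is a formula -/
theorem good_cl (hACB : T_ACB) (V : ℕ → Verifier) (F : List Bool → DNF (List Bool))
    (t : List Bool → ℕ) (hF : Nf V F t) (n N r : ℕ) (hN : (2 * N + 2) ^ 2 ≤ 2 ^ r ^ 2)
    (D : Dat) (X : (Fin n → Bool) → Bool) (Y : Type) (σ : (Y → Bool) → Se n N) (a : Ad n N)
    (ha : ∀ y, (σ y).1 = a)
    (hl : ∀ w, (∃ b, ∀ y, lbv V D X (σ y) w = b) ∨ ∃ v, ∀ y, lbv V D X (σ y) w = y v) :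
    Cl Y (2 ^ 2 ^ r ^ 2) 12 fun y => open Classical in decide (GoodS V F D X (σ y)) := by
  classical
  have h0 : 1 ≤ 2 ^ r ^ 2 := Nat.one_le_two_pow
  have hZ : ∀ m, m ≤ (2 * N + 2) ^ 2 → 2 ^ m ≤ 2 ^ 2 ^ r ^ 2 := fun m hm =>
    Nat.pow_le_pow_right (by norm_num) (hm.trans hN)
  have hNZ : N ≤ 2 ^ 2 ^ r ^ 2 := by
    refine (Nat.lt_two_pow_self (n := N)).le.trans (hZ N ?_)
    nlinarith
  have hts : ∀ s : Li n N, (t s.1 + 1) ^ 2 ≤ N + 1 := fun s => by
    have h1 := hF.sq s.1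
    have h2 := s.2.2
    omega
  have h1 := hACB Y (List Bool) (Li n N) (Li n N) (2 ^ 2 ^ r ^ 2) (N + 1) N N (lst a)
    (fun y => lbv V D X (σ y)) (fun s => F s.1)
    (by
      calc 2 = 2 ^ 1 := rfl
        _ ≤ 2 ^ 2 ^ r ^ 2 := Nat.pow_le_pow_right (by norm_num) h0)
    hNZ hNZ (hZ _ (by nlinarith))
    (by
      rw [← pow_mul]
      exact hZ _ (by nlinarith))
    ((card_Li n N).trans (hZ _ (by nlinarith)))
    (fun s => (hF.len s.1).trans (Nat.pow_le_pow_right (by norm_num) (by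
      have := hts s
      nlinarith)))
    (fun s T hT => (hF.tl s.1 T hT).trans (by
      have := hts s
      nlinarith))
    hl
  have h2 : (fun y => decide (GoodS V F D X (σ y))) =
      fun y => decide (∀ i : Li n N, ¬ Bad (lst a) (lbv V D X (σ y)) (F i.1) N) := by
    funext y
    have h3 : GoodS V F D X (σ y) ↔
        ∀ i : Li n N, ¬ Bad (lst a) (lbv V D X (σ y)) (F i.1) N := by
      unfold GoodS
      rw [ha y]
    exact decide_eq_decide.2 h3
  rw [h2]
  exact h1

/-- BLG -/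
theorem pf_BLG (hBLX : T_BLX) (hMAS : T_MAS) (hCLB : Pool.Agent.H6.NB.T_CLB) (hACB : T_ACB)
    (hLIT : T_LIT) (hSTR : Pool.Agent.H70.RC.T_STR) : Pool.Agent.H70.RC.T_BLG := by
  classical
  intro V F t hF n N hN D X a h P p b
  set r := p.1.1.length + 20 with hr
  have hSz : Sz r (hl p).length (qs (hl p)) (rns (hl p)) (wln (hl p)) := hSTR.2.2.2 ⟨p.1.1, p.2⟩
  have hnr : n + 20 ≤ r := by
    have := p.1.2.1
    omega
  have hN' : (2 * N + 2) ^ 2 ≤ 2 ^ r ^ 2 := hN.trans (Nat.pow_le_pow_right (by norm_num)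
    (Nat.pow_le_pow_left hnr 2))
  have h2Z : 2 ≤ 2 ^ 2 ^ r ^ 2 := by
    calc 2 = 2 ^ 1 := rfl
      _ ≤ 2 ^ 2 ^ r ^ 2 := Nat.pow_le_pow_right (by norm_num) Nat.one_le_two_pow
  set B : CB (hl p) → Bool := fun c => decide (GoodS V F D X (a, h, Function.update P p c)) with hB
  have hc1 : ∀ P' u h', Cl (VV (qs (hl p))) (2 ^ 2 ^ r ^ 2) (r + 2)
      fun c => B (Function.update P' u c, h') := by
    intro P' u h'
    refine clb12 hCLB h2Z hSz.r_ge (good_cl hACB V F t hF n N r hN' D X (VV (qs (hl p)))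
      (fun c => (a, h, Function.update P p (Function.update P' u c, h'))) a (fun _ => rfl) ?_)
    intro w
    have h1 := (hLIT V n N D X a h (Function.update P p (P', h')) w).2.1 p u
    simp only [Function.update_self, Function.update_idem] at h1
    exact h1
  have hc2 : ∀ P', Cl (Fin (wln (hl p)) → Bool) (2 ^ 2 ^ r ^ 2) (r + 2) fun h' => B (P', h') := by
    intro P'
    refine clb12 hCLB h2Z hSz.r_ge (good_cl hACB V F t hF n N r hN' D X
      (Fin (wln (hl p)) → Bool)
      (fun h' => (a, h, Function.update P p (P', h'))) a (fun _ => rfl) ?_)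
    intro w
    have h1 := (hLIT V n N D X a h (Function.update P p (P', fun _ => false)) w).2.2.1 p
    simp only [Function.update_self, Function.update_idem] at h1
    exact h1
  have h3 := hBLX r (hl p).length (qs (hl p)) (rns (hl p)) (wln (hl p)) hSz b B hc1 hc2
  obtain ⟨h4, h5, -⟩ := hMAS (qs (hl p)) (hl p).length (rns (hl p)) (wln (hl p))
  have hbi : ∀ c, bi (B c) = if GoodS V F D X (a, h, Function.update P p c) then 1 else 0 := by
    intro c
    unfold bi
    by_cases hg : GoodS V F D X (a, h, Function.update P p c)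
    · rw [if_pos (decide_eq_true hg), if_pos hg]
    · rw [if_neg hg, if_neg (by
        rw [decide_eq_true_iff]
        exact hg)]
  simp only [hbi] at h3
  have hx : ∑ c : CB (hl p), m0 (qs (hl p)) (hl p).length (wln (hl p)) c *
      (if GoodS V F D X (a, h, Function.update P p c) then 1 else 0) ≤ 1 := by
    refine le_trans ?_ h5.le
    refine sum_le_sum fun c _ => ?_
    split_ifs
    · rw [mul_one]
    · rw [mul_zero]
      exact h4 c
  have he : (0 : ℝ) < (1 / 8) ^ r := by positivity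
  have he2 : (1 / 8 : ℝ) ^ r / (4 * 2 ^ 2 ^ r) ≤ (1 / 8) ^ r / 4 := by
    refine div_le_div_of_nonneg_left he.le (by norm_num) ?_
    have : (1 : ℝ) ≤ 2 ^ 2 ^ r := one_le_pow₀ (by norm_num)
    linarith
  nlinarith [h3, hx, he, he2]

end Pool.Agent.H97.RC
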